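import Pool.Agent.H602R3.HTEx

/-!
# MP_9803f8_al : high transitivity is not a weakly geometric property

Let `P` be the group generated by the permutations `x₀, y₀, t` of `(ℤ → ℤ/2) × ℤ/2` (a
lamplighter-type group over the infinite extraspecial group), let `z` be its central involution and
`Z = ⟨z⟩`.  The group `G` consists of all pairs `(π, q)` where `q ∈ P` and `π` is a permutation of
`P/Z` which differs from the translation by `q` by a finitely supported permutation; the group `H`
is the image of `G` in `Sym (P/Z)`.  Then `G → H` has kernel of order two, `H` is highly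
transitive, and every finite index subgroup of `G` contains the central element `(1, z)`.
A group which has a finite index subgroup with nontrivial centre is never highly transitive.
-/

namespace Pool.Agent.Results.MP_9803f8_al.NotWeaklyGeometric

open Pool.Agent.H602R3.HT

universe u

/-- There are finitely generated groups `G`, `H` that are quasi-isometric, such that `H` is highly
transitive and no group commensurable to `G` is highly transitive. -/
theorem result : ∃ (G H : Type) (_ : Group G) (_ : Group H),
    Group.FG G ∧ Group.FG H ∧ QuasiIsometric G H ∧ HighlyTransitive H ∧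
      ∀ (K : Type u) (_ : Group K), Commensurable G K → ¬ HighlyTransitive K := by
  classical
  -- `P` is finitely generated
  obtain ⟨A, hA⟩ : ∃ A : Finset PP, Subgroup.closure (A : Set PP) = ⊤ := by
    have h : PP.FG := ⟨{xx 0, yy 0, tt}, by
      rw [PP]; congr 1; simp⟩
    exact ((Group.fg_iff_subgroup_fg PP).2 h).out
  obtain ⟨S, hS⟩ := GG_fg (Z := ZZ) A hA
  have hfg : Group.FG (GG ZZ) := ⟨⟨S, hS⟩⟩
  have hker : (((pp (Z := ZZ)).rangeRestrict.ker : Subgroup (GG ZZ)) : Set (GG ZZ)).Finite := by
    refine Set.Finite.subset (Set.toFinite {dd (Z := ZZ) 1, dd (Z := ZZ) zP}) ?_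
    intro g hg
    rw [MonoidHom.ker_rangeRestrict] at hg
    obtain ⟨z, hz, rfl⟩ := ker_pp infinite_quot ZZ_le hg
    rcases mem_ZZ hz with rfl | rfl
    · left; rfl
    · right; rfl
  refine ⟨GG ZZ, (pp (Z := ZZ)).range, inferInstance, inferInstance, hfg, ?_, ?_, ?_, ?_⟩
  · exact Group.fg_of_surjective (MonoidHom.rangeRestrict_surjective (pp (Z := ZZ)))
  · exact quasiIsometric_of_surj _ (MonoidHom.rangeRestrict_surjective (pp (Z := ZZ))) hker S hS
  · exact HT_range infinite_quot
  · rintro K _ ⟨G₁, K₁, hG₁, hK₁, ⟨e⟩⟩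
    have hz : dd (Z := ZZ) zP ∈ G₁ := zeta_mem G₁ hG₁
    refine not_HT_of_center K₁ hK₁ (z := (e ⟨dd (Z := ZZ) zP, hz⟩ : K)) ?_ ?_
    · intro h
      have h1 : e ⟨dd (Z := ZZ) zP, hz⟩ = 1 := Subtype.ext h
      have h2 : (⟨dd (Z := ZZ) zP, hz⟩ : G₁) = 1 := by
        rwa [map_eq_one_iff e e.injective] at h1
      have h3 : dd (Z := ZZ) zP = 1 := congrArg Subtype.val h2
      have h4 : zP = 1 := congrArg (fun g : GG ZZ => g.1.2) h3
      exact zP_ne h4
    · intro m hm
      have h1 : (⟨m, hm⟩ : K₁) * e ⟨dd (Z := ZZ) zP, hz⟩ =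
          e ⟨dd (Z := ZZ) zP, hz⟩ * ⟨m, hm⟩ := by
        obtain ⟨g, hg⟩ := e.surjective ⟨m, hm⟩
        rw [← hg, ← map_mul, ← map_mul]
        congr 1
        exact Subtype.ext (dd_central ZZ_le (Subgroup.mem_zpowers zP) g.1)
      exact congrArg Subtype.val h1

end Pool.Agent.Results.MP_9803f8_al.NotWeaklyGeometric
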